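import Pool.Agent.X91.FA.Main

/-!
# In the Fermi-Amaldi TFW theory `E(z+1) < E(z)` fails for `z = 1`

The functional, the admissible densities and the ground state energy `Egs z N` are defined in
`Pool.Agent.X91.FA.Def`. We show `E(1) ≤ -0.327` and `E(2) ≥ -0.323` for `z = 1`.
-/

set_option autoImplicit false

open MeasureTheory

namespace Pool.Agent.Results.MP_8f8f86_mp.NotDecreasing

open Pool.Agent.X91.FA

/-- The infima are over nonempty sets bounded below; for `z = 1` they satisfy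
`E(1) ≤ -0.327 < -0.323 ≤ E(2)`, so `E(z+1) < E(z)` is false for some `z ≥ 1`. -/
theorem result :
    (∀ z N : ℕ, 1 ≤ N → (Vals z N).Nonempty ∧ BddBelow (Vals z N)) ∧
    Egs 1 1 ≤ -327 / 1000 ∧ -323 / 1000 ≤ Egs 1 2 ∧
    ¬ ∀ z : ℕ, 1 ≤ z → Egs z (z + 1) < Egs z z := by
  refine ⟨fun z N hN => ⟨vals_nonempty z N hN, vals_bdd z N hN⟩, upper, lower, fun h => ?_⟩
  have h1 := h 1 le_rfl
  have h2 := upper
  have h3 := lower
  norm_num at h1
  linarith

end Pool.Agent.Results.MP_8f8f86_mp.NotDecreasing
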